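import Pool.Agent.Y835.ZM.Main

/-!
An exponential separation of the zero-information Arthur-Merlin complexity from the
co-nondeterministic complexity, for set disjointness, and a separation for sparse sets.

`AMProtocol`, `AMProtocol.IsZAM` and `ZAM` are defined in `Pool.Agent.H570R2.ZamDefs`, and `DISJ` in
`Pool.Agent.H841.Embed` (both are files of the starting point).
-/

set_option autoImplicit false

namespace Pool.Agent.Results.MP_668cf7_lc.ExponentialSeparation

open Filter Topology Pool.Agent.H570R2 Pool.Agent.H841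

/-- The 0-inputs of `f` are the union of `N` rectangles `A i ×ˢ B i`. -/
def ZeroCover {X Y : Type} (f : X → Y → Bool) (N : ℕ) : Prop :=
  ∃ (A : Fin N → Set X) (B : Fin N → Set Y), (⋃ i, A i ×ˢ B i) = {p : X × Y | f p.1 p.2 = false}

/-- `coNP(f) = ⌈log₂ N⌉` for the least number `N` of rectangles inside the 0-inputs of `f` whose
union is the set of 0-inputs. -/
noncomputable def coNP {X Y : Type} (f : X → Y → Bool) : ℕ :=
  Nat.clog 2 (sInf {N : ℕ | ZeroCover f N})

/-- The subsets of `{0, …, n - 1}` with at most `k` elements, as 0-1-vectors. -/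
abbrev SparseSet (n k : ℕ) : Type :=
  {x : Fin n → Bool // (Finset.univ.filter (fun i => x i = true)).card ≤ k}

/-- Sparse set disjointness: both players have a set with at most `k` elements. -/
def SparseDISJ (n k : ℕ) (x y : SparseSet n k) : Bool := DISJ n x.1 y.1

lemma disj_false (n : ℕ) (x y : Fin n → Bool) :
    DISJ n x y = false ↔ ∃ i, x i = true ∧ y i = true := by
  rw [← Bool.not_eq_true, DISJ_iff]
  push Not
  rfl

/-- A fooling set: the least number of rectangles is at least `n`. -/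
lemma le_of_cover {X Y : Type} (f : X → Y → Bool) (n : ℕ) (a : Fin n → X) (b : Fin n → Y)
    (h : ∀ i j, f (a i) (b j) = false ↔ i = j) (N : ℕ) (hN : ZeroCover f N) : n ≤ N := by
  obtain ⟨A, B, hAB⟩ := hN
  have h1 : ∀ i : Fin n, ∃ m : Fin N, a i ∈ A m ∧ b i ∈ B m := by
    intro i
    have h2 : ((a i, b i) : X × Y) ∈ {p : X × Y | f p.1 p.2 = false} := (h i i).2 rfl
    rw [← hAB] at h2
    obtain ⟨m, hm⟩ := Set.mem_iUnion.1 h2
    exact ⟨m, hm.1, hm.2⟩
  choose g hg using h1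
  have hinj : Function.Injective g := by
    intro i j hij
    have h3 : ((a i, b j) : X × Y) ∈ ⋃ m, A m ×ˢ B m := by
      refine Set.mem_iUnion.2 ⟨g i, (hg i).1, ?_⟩
      rw [hij]
      exact (hg j).2
    rw [hAB] at h3
    exact (h i j).1 h3
  have := Fintype.card_le_of_injective g hinj
  simpa using this

lemma coNP_eq {X Y : Type} (f : X → Y → Bool) (n : ℕ) (a : Fin n → X) (b : Fin n → Y)
    (h : ∀ i j, f (a i) (b j) = false ↔ i = j) (hc : ZeroCover f n) : coNP f = Nat.clog 2 n := by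
  unfold coNP
  congr 1
  apply le_antisymm (Nat.sInf_le hc)
  exact le_of_cover f n a b h _ (Nat.sInf_mem (⟨n, hc⟩ : {N : ℕ | ZeroCover f N}.Nonempty))

/-- The singleton `{i}`. -/
def single {n : ℕ} (i : Fin n) : Fin n → Bool := fun j => decide (j = i)

lemma single_disj {n : ℕ} (i j : Fin n) : DISJ n (single i) (single j) = false ↔ i = j := by
  rw [disj_false]
  unfold single
  constructor
  · rintro ⟨l, h1, h2⟩
    rw [decide_eq_true_iff] at h1 h2
    exact h1.symm.trans h2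
  · intro h
    exact ⟨i, by simp, by simp [h]⟩

/-- `coNP(DISJ_n) = ⌈log₂ n⌉`. -/
lemma coNP_disj (n : ℕ) : coNP (DISJ n) = Nat.clog 2 n := by
  refine coNP_eq (DISJ n) n single single single_disj ?_
  refine ⟨fun i => {x | x i = true}, fun i => {y | y i = true}, ?_⟩
  ext ⟨x, y⟩
  simp only [Set.mem_iUnion, Set.mem_prod, Set.mem_ofPred_eq]
  exact (disj_false n x y).symm

/-- `coNP` of sparse disjointness. -/
lemma coNP_sparse (n k : ℕ) (hk : 1 ≤ k) : coNP (SparseDISJ n k) = Nat.clog 2 n := by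
  have hs : ∀ i : Fin n, (Finset.univ.filter (fun j => single i j = true)).card ≤ k := by
    intro i
    have : Finset.univ.filter (fun j => single i j = true) = {i} := by
      ext j
      simp [single]
    rw [this, Finset.card_singleton]
    exact hk
  refine coNP_eq (SparseDISJ n k) n (fun i => ⟨single i, hs i⟩) (fun i => ⟨single i, hs i⟩)
    (fun i j => single_disj i j) ?_
  refine ⟨fun i => {x | x.1 i = true}, fun i => {y | y.1 i = true}, ?_⟩
  ext ⟨x, y⟩
  simp only [Set.mem_iUnion, Set.mem_prod, Set.mem_ofPred_eq]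
  exact (disj_false n x.1 y.1).symm

lemma logb_le_clog' (n : ℕ) (hn : 2 ≤ n) : (Nat.clog 2 n : ℝ) ≤ Real.logb 2 n + 1 := by
  have h1 := clog_le_log_succ n
  have h2 : ((2 : ℝ) ^ Nat.log 2 n) ≤ n := by exact_mod_cast Nat.pow_log_le_self 2 (by omega)
  have h3 := Real.logb_le_logb_of_le (b := 2) (by norm_num) (by positivity) h2
  rw [Real.logb_pow, Real.logb_self_eq_one (by norm_num), mul_one] at h3
  have h4 : (Nat.clog 2 n : ℝ) ≤ (Nat.log 2 n : ℝ) + 1 := by exact_mod_cast h1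
  linarith

/-- Separation of `ZAM` from `coNP`.
(1) `coNP(DISJ_n) = ⌈log₂ n⌉` for all `n`.
(2) `ZAM(DISJ_n) ≥ n^(1/118)` and `ZAM(DISJ_n) ≥ 2^(coNP(DISJ_n)/119)` for all large `n`.
(3) If `t ≥ 10⁶`, `t ^ 118 ≤ n ≤ e ^ t` and `k ≥ t ^ 18`, then for disjointness of subsets of an
`n`-element set with at most `k` elements `coNP = ⌈log₂ n⌉` and `ZAM ≥ (t / 2) log₂ n`.
(4) `ZAM(DISJ_n) / max(1, coNP(DISJ_n)) → ∞`, where `DISJ_n : {0,1}^n × {0,1}^n → {0,1}`. -/
theorem result :
    (∀ n : ℕ, coNP (DISJ n) = Nat.clog 2 n) ∧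
    (∀ᶠ n : ℕ in atTop,
      ENNReal.ofReal ((n : ℝ) ^ ((1 : ℝ) / 118)) ≤ ((ZAM (DISJ n) : ℕ∞) : ENNReal) ∧
      ENNReal.ofReal ((2 : ℝ) ^ ((coNP (DISJ n) : ℝ) / 119)) ≤
        ((ZAM (DISJ n) : ℕ∞) : ENNReal)) ∧
    (∀ t n k : ℕ, 1000000 ≤ t → t ^ 118 ≤ n → Real.log n ≤ t → t ^ 18 ≤ k →
      coNP (SparseDISJ n k) = Nat.clog 2 n ∧
      ENNReal.ofReal ((t : ℝ) / 2 * Real.logb 2 n) ≤
        ((ZAM (SparseDISJ n k) : ℕ∞) : ENNReal)) ∧
    Tendsto (fun n : ℕ => ((ZAM (DISJ n) : ℕ∞) : ENNReal) /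
      ((max 1 (coNP (DISJ n)) : ℕ) : ENNReal)) atTop (𝓝 ⊤) := by
  refine ⟨coNP_disj, ?_, ?_, ?_⟩
  · filter_upwards [Pool.Agent.Y835.ZM.zam_power, eventually_ge_atTop (2 ^ 118)] with n h1 hn
    refine ⟨h1, le_trans (ENNReal.ofReal_le_ofReal ?_) h1⟩
    have hn2 : 2 ≤ n := le_trans (by norm_num) hn
    have hn0 : (0 : ℝ) < n := by
      have : 0 < n := by omega
      exact_mod_cast this
    rw [coNP_disj]
    have h2 := logb_le_clog' n hn2
    have h3 : (118 : ℝ) ≤ Real.logb 2 n := by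
      rw [Real.le_logb_iff_rpow_le (by norm_num) hn0]
      have h4 : ((2 : ℝ) ^ (118 : ℝ)) = (2 : ℝ) ^ (118 : ℕ) := by
        rw [← Real.rpow_natCast]; norm_num
      rw [h4]
      exact_mod_cast hn
    have h5 : (n : ℝ) = (2 : ℝ) ^ (Real.logb 2 n) :=
      (Real.rpow_logb (by norm_num) (by norm_num) hn0).symm
    have h6 : (n : ℝ) ^ ((1 : ℝ) / 118) = (2 : ℝ) ^ (Real.logb 2 n / 118) := by
      rw [div_eq_mul_one_div (Real.logb 2 n), Real.rpow_mul (by norm_num), ← h5]
    rw [h6]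
    apply Real.rpow_le_rpow_of_exponent_le (by norm_num)
    rw [div_le_div_iff₀ (by norm_num) (by norm_num)]
    linarith
  · intro t n k h1 h2 h3 h4
    exact ⟨coNP_sparse n k (le_trans (Nat.one_le_pow _ _ (by omega)) h4),
      Pool.Agent.Y835.ZM.zam_sparse t n k h1 h2 h3 h4⟩
  · rw [ENNReal.tendsto_nhds_top_iff_nat]
    intro C
    filter_upwards [zam_gt C, eventually_ge_atTop 2] with n hn hn2
    have hc : 1 ≤ Nat.clog 2 n := Nat.clog_pos (by norm_num) hn2
    rw [coNP_disj, max_eq_right hc]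
    rw [ENNReal.lt_div_iff_mul_lt (Or.inl (by
      have : Nat.clog 2 n ≠ 0 := by omega
      exact_mod_cast this)) (Or.inl (ENNReal.natCast_ne_top _))]
    have h3 : ((C * Nat.clog 2 n + 1 : ℕ) : ENNReal) ≤ ((ZAM (DISJ n) : ℕ∞) : ENNReal) := by
      have h4 := ENat.toENNReal_le.2 hn
      simpa using h4
    refine lt_of_lt_of_le ?_ h3
    exact_mod_cast Nat.lt_succ_self _

end Pool.Agent.Results.MP_668cf7_lc.ExponentialSeparation
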